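import Pool.Agent.Helper77.DS.Kos

/-! DS-15: the powers of the Segre ideal are finitely generated as Delta-ideals. -/

namespace Pool.Agent.Helper77.DS

open MvPolynomial

noncomputable section

/-- the letter `2 s` -/
def bfE {M : ℕ} (s : Fin M) : Fin (2 * M) := ⟨2 * s.1, by omega⟩

/-- the letter `2 s + 1` -/
def bfO {M : ℕ} (s : Fin M) : Fin (2 * M) := ⟨2 * s.1 + 1, by omega⟩

/-- the product of generic exchange binomials -/
def bfPoly (M b : ℕ) (c : Fin M → Fin (b + 1)) : MvPolynomial (Fin (b + 1) → Fin (2 * M)) ℂ :=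
  ∏ s : Fin M, (X (fun _ => bfE s) * X (fun _ => bfO s) -
    X (Function.update (fun _ => bfE s) (c s) (bfO s)) *
      X (Function.update (fun _ => bfO s) (c s) (bfE s)))

/-- the product of generic exchange binomials as an element -/
def bfElt (M b : ℕ) (c : Fin M → Fin (b + 1)) : DI.Elt where
  ι := Fin (b + 1)
  V := fun _ => Fin (2 * M)
  finι := inferInstance
  neι := inferInstance
  finV := fun _ => inferInstance
  f := bfPoly M b c

theorem bf_pow_span {I E : Type} [DecidableEq I] (M : ℕ) (P : Ideal (MvPolynomial (I → E) ℂ))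
    (h : ∀ (u v : Fin M → I → E) (i : Fin M → I),
      ∏ s, (X (u s) * X (v s) - X (Function.update (u s) (i s) (v s (i s))) *
        X (Function.update (v s) (i s) (u s (i s)))) ∈ P) : segI I E ^ M ≤ P := by
  have h1 : segI I E ^ M = ∏ _s : Fin M, segI I E := by simp
  rw [h1]
  unfold segI
  rw [Ideal.prod_span, Ideal.span_le]
  intro x hx
  rw [Set.mem_finsetProd] at hx
  obtain ⟨g, hg, rfl⟩ := hx
  have hg' : ∀ s : Fin M, ∃ (u v : I → E) (i : I),
    g s = X u * X v - X (Function.update u i (v i)) * X (Function.update v i (u i)) :=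
    fun s => hg (Finset.mem_univ s)
  choose u v i hgi using hg'
  have := h u v i
  simp only [← hgi] at this
  exact this

theorem bf_mem_seg (M b : ℕ) (c : Fin M → Fin (b + 1)) :
    bfPoly M b c ∈ segI (Fin (b + 1)) (Fin (2 * M)) ^ M := by
  have h1 : segI (Fin (b + 1)) (Fin (2 * M)) ^ M = ∏ _s : Fin M, segI (Fin (b + 1)) (Fin (2 * M)) := by
    simp
  rw [h1]
  unfold bfPoly
  apply Ideal.prod_mem_prod
  intro s _
  apply Ideal.subset_span
  exact ⟨_, _, c s, rfl⟩

open Classical in
/-- the zero-one matrices of the maps `w` -/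
def bfMat {ι : Type} {V V' : ι → Type} (w : ∀ i, V i → V' i) : ∀ i, V' i → V i → ℂ :=
  fun i c' c => if c' = w i c then 1 else 0

/-- lmap with a zero-one matrix -/
theorem bf_lmap_X {ι : Type} [Finite ι] {V V' : ι → Type} [∀ i, Finite (V' i)]
    (w : ∀ i, V i → V' i) (α : ∀ i, V i) :
    DI.lmap (V := V) (V' := V') (bfMat w) (X α) = X (fun i => w i (α i)) := by
  classical
  unfold DI.lmap bfMat
  rw [aeval_X]
  rw [finsum_eq_single _ (fun i => w i (α i))]
  · have : (∏ᶠ i, (if w i (α i) = w i (α i) then (1:ℂ) else 0)) = 1 := by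
      simp
    rw [this]
    simp
  · intro β hβ
    have : ∃ i, β i ≠ w i (α i) := by
      by_contra hcon
      push Not at hcon
      exact hβ (funext hcon)
    obtain ⟨i, hi⟩ := this
    have h0 : (∏ᶠ i, (if β i = w i (α i) then (1:ℂ) else 0)) = 0 := by
      have := Fintype.ofFinite ι
      rw [finprod_eq_prod_of_fintype]
      apply Finset.prod_eq_zero (Finset.mem_univ i)
      simp [hi]
    rw [h0]
    simp

/-- DS-15 -/
theorem base_fin (M : ℕ) : ∃ S : List DI.Elt,
    (∀ I : DI.DeltaIdeal,
      (∀ n m : ℕ, segI (Fin (n + 1)) (Fin m) ^ M ≤ I.ideal (Fin (n + 1)) (fun _ => Fin m)) →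
        ∀ x ∈ S, I.Mem x) ∧
    ∀ J : DI.DeltaIdeal, (∀ x ∈ S, J.Mem x) →
      ∀ n m : ℕ, segI (Fin (n + 1)) (Fin m) ^ M ≤ J.ideal (Fin (n + 1)) (fun _ => Fin m) := by
  classical
  refine ⟨(List.range (M + 1)).flatMap fun b =>
    (Finset.univ : Finset (Fin M → Fin (b + 1))).toList.map (bfElt M b), ?_, ?_⟩
  · intro I hI x hx
    rw [List.mem_flatMap] at hx
    obtain ⟨b, -, hx⟩ := hx
    rw [List.mem_map] at hx
    obtain ⟨c, -, rfl⟩ := hx
    exact hI b (2 * M) (bf_mem_seg M b c)
  · intro J hJ n m
    have hJ' : ∀ b, b ≤ M → ∀ c : Fin M → Fin (b + 1),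
        bfPoly M b c ∈ J.ideal (Fin (b + 1)) (fun _ => Fin (2 * M)) := by
      intro b hb c
      apply hJ (bfElt M b c)
      rw [List.mem_flatMap]
      refine ⟨b, List.mem_range.2 (by omega), ?_⟩
      rw [List.mem_map]
      exact ⟨c, by simp, rfl⟩
    apply bf_pow_span
    intro u v i
    -- the quotient
    let r : Setoid (Fin (n + 1)) :=
      { r := fun a b => a = b ∨ ((∀ s, i s ≠ a) ∧ ∀ s, i s ≠ b)
        iseqv := by
          refine ⟨fun a => Or.inl rfl, ?_, ?_⟩
          · rintro a b (h | h)
            · exact Or.inl h.symm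
            · exact Or.inr ⟨h.2, h.1⟩
          · rintro a b c (h | h) (h' | h')
            · exact Or.inl (h.trans h')
            · subst h; exact Or.inr h'
            · subst h'; exact Or.inr h
            · exact Or.inr ⟨h.1, h'.2⟩ }
    have hcard : Fintype.card (Quotient r) ≤ M + 1 := by
      -- every class is the class of some `i s` or the rest
      have hinj : ∃ g : Quotient r → Option (Fin M), Function.Injective g := by
        have hch : ∀ q : Quotient r, ∃ o : Option (Fin M),
            (∀ s, o = some s → q = Quotient.mk r (i s)) ∧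
            (o = none → ∀ a, q = Quotient.mk r a → ∀ s, i s ≠ a) := by
          intro q
          by_cases hq : ∃ s, q = Quotient.mk r (i s)
          · obtain ⟨s, hs⟩ := hq
            refine ⟨some s, ?_, by simp⟩
            intro s' hs'
            simp only [Option.some.injEq] at hs'
            subst hs'
            exact hs
          · refine ⟨none, by simp, ?_⟩
            intro _ a ha s hs
            exact hq ⟨s, by rw [ha, hs]⟩
        choose g hg1 hg2 using hch
        refine ⟨g, ?_⟩
        intro q q' hqq
        cases hgo : g q with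
        | some s => rw [hg1 q s hgo, hg1 q' s (hqq ▸ hgo)]
        | none =>
          obtain ⟨a, rfl⟩ := Quotient.exists_rep q
          obtain ⟨a', rfl⟩ := Quotient.exists_rep q'
          apply Quotient.sound
          exact Or.inr ⟨hg2 _ hgo a rfl, hg2 _ (hqq ▸ hgo) a' rfl⟩
      obtain ⟨g, hg⟩ := hinj
      have := Fintype.card_le_of_injective g hg
      simpa using this
    have hpos : 0 < Fintype.card (Quotient r) := by
      apply Fintype.card_pos_iff.2
      exact ⟨Quotient.mk r 0⟩
    obtain ⟨b, hb⟩ : ∃ b, Fintype.card (Quotient r) = b + 1 := ⟨Fintype.card (Quotient r) - 1, by omega⟩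
    let e : Quotient r ≃ Fin (b + 1) := Fintype.equivFinOfCardEq hb
    let π : Fin (n + 1) → Fin (b + 1) := fun a => e (Quotient.mk r a)
    have hπs : Function.Surjective π := by
      intro j
      obtain ⟨a, ha⟩ := Quotient.exists_rep (e.symm j)
      refine ⟨a, ?_⟩
      simp only [π]
      rw [ha]
      simp
    have hπ : ∀ s a, π a = π (i s) → a = i s := by
      intro s a h
      have h1 : Quotient.mk r a = Quotient.mk r (i s) := e.injective h
      have h2 := Quotient.exact h1
      rcases h2 with h2 | h2
      · exact h2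
      · exact absurd rfl (h2.2 s)
    let w : Fin (2 * M) → Fin (n + 1) → Fin m := fun c =>
      if c.1 % 2 = 0 then u ⟨c.1 / 2, by omega⟩ else v ⟨c.1 / 2, by omega⟩
    have hwE : ∀ s, w (bfE s) = u s := by
      intro s
      simp only [w, bfE]
      rw [if_pos (by omega)]
      congr 1
      apply Fin.ext
      show 2 * s.1 / 2 = s.1
      omega
    have hwO : ∀ s, w (bfO s) = v s := by
      intro s
      simp only [w, bfO]
      rw [if_neg (by omega)]
      congr 1
      apply Fin.ext
      show (2 * s.1 + 1) / 2 = s.1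
      omega
    have h1 := hJ' b (by omega) (fun s => π (i s))
    have h2 := J.linear (Fin (b + 1)) (fun _ => Fin (2 * M))
      (fun j => ∀ _ : {a : Fin (n + 1) // π a = j}, Fin m)
      (bfMat fun j c a => w c a.1) _ h1
    have h3 := J.merge (Fin (n + 1)) (Fin (b + 1)) π hπs (fun _ => Fin m) _ h2
    have key : ∀ α : Fin (b + 1) → Fin (2 * M),
        rename (fun (β : ∀ j : Fin (b + 1), ∀ _ : {a : Fin (n + 1) // π a = j}, Fin m)
          (a : Fin (n + 1)) => β (π a) ⟨a, rfl⟩)
          (DI.lmap (V := fun _ => Fin (2 * M))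
            (V' := fun j => ∀ _ : {a : Fin (n + 1) // π a = j}, Fin m)
            (bfMat fun j c a => w c a.1) (X α)) =
          X (fun a => w (α (π a)) a) := by
      intro α
      have := bf_lmap_X (V := fun _ : Fin (b + 1) => Fin (2 * M))
        (V' := fun j => ∀ _ : {a : Fin (n + 1) // π a = j}, Fin m)
        (fun j c a => w c a.1) α
      rw [this, rename_X]
    convert h3 using 1
    unfold bfPoly
    rw [map_prod, map_prod]
    refine Finset.prod_congr rfl fun s _ => ?_
    rw [map_sub, map_sub, map_mul, map_mul, map_mul, map_mul, key, key, key, key]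
    congr 1
    · rw [hwE, hwO]
    · congr 2
      · funext a
        by_cases ha : a = i s
        · subst ha
          simp [hwO]
        · have : π a ≠ π (i s) := fun h => ha (hπ s a h)
          rw [Function.update_of_ne ha, Function.update_of_ne this, hwE]
      · funext a
        by_cases ha : a = i s
        · subst ha
          simp [hwE]
        · have : π a ≠ π (i s) := fun h => ha (hπ s a h)
          rw [Function.update_of_ne ha, Function.update_of_ne this, hwO]

end

end Pool.Agent.Helper77.DS
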